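import Mathlib

set_option autoImplicit false

/-!
# Scaled multiple zeta values: the coefficients of the Dirichlet series
-/

namespace Pool.Agent.V7H97.SH

open Filter Topology ArithmeticFunction

/-- the sequences `k_1 > … > k_r ≥ 1`, as many numbers as the word `w` has letters -/
def Tuples (w : List ℕ) : Set (List ℕ) :=
  {k | k.length = w.length ∧ k.Pairwise (· > ·) ∧ ∀ x ∈ k, 1 ≤ x}

/-- the number `k_1 ^ n_1 ⋯ k_r ^ n_r` -/
def pw (w k : List ℕ) : ℕ := (List.zipWith (fun x n => x ^ n) k w).prod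

@[simp] theorem pw_nil (k : List ℕ) : pw [] k = 1 := by simp [pw]

@[simp] theorem pw_cons (n x : ℕ) (w k : List ℕ) : pw (n :: w) (x :: k) = x ^ n * pw w k := by
  simp [pw]

theorem pw_concat (n x : ℕ) (w k : List ℕ) (h : k.length = w.length) :
    pw (w ++ [n]) (k ++ [x]) = pw w k * x ^ n := by
  unfold pw
  rw [List.zipWith_append h]
  simp

theorem pw_pos : ∀ (w k : List ℕ), (∀ x ∈ k, 1 ≤ x) → 1 ≤ pw w k
  | [], k, _ => by simp
  | n :: w, [], _ => by simp [pw]
  | n :: w, x :: k, h => by
    rw [pw_cons]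
    have h1 := pw_pos w k fun y hy => h y (by simp [hy])
    have h2 : 1 ≤ x := h x (by simp)
    exact Nat.mul_pos (Nat.pow_pos h2) h1

/-! ### primes -/

theorem omega_ge : ∀ (u k : List ℕ), k.length = u.length → (∀ n ∈ u, 1 ≤ n) → (∀ x ∈ k, 2 ≤ x) →
    u.sum ≤ cardFactors (pw u k) ∧ (cardFactors (pw u k) = u.sum → ∀ x ∈ k, x.Prime)
  | [], [], _, _, _ => by simp
  | [], x :: k, h, _, _ => by simp at h
  | n :: u, [], h, _, _ => by simp at h
  | n :: u, x :: k, h, hu, hk => by
    have ih := omega_ge u k (by simpa using h) (fun y hy => hu y (by simp [hy]))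
      (fun y hy => hk y (by simp [hy]))
    have hx : 2 ≤ x := hk x (by simp)
    have hn : 1 ≤ n := hu n (by simp)
    have h1 : pw u k ≠ 0 := by
      have := pw_pos u k fun y hy => le_trans (by norm_num) (hk y (by simp [hy]))
      omega
    have h2 : x ^ n ≠ 0 := by positivity
    have h3 : cardFactors (pw (n :: u) (x :: k)) = n * cardFactors x + cardFactors (pw u k) := by
      rw [pw_cons, cardFactors_mul h2 h1, cardFactors_pow]
    have h4 : 1 ≤ cardFactors x := cardFactors_pos_iff_one_lt.2 (by omega)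
    have h5 : n ≤ n * cardFactors x := Nat.le_mul_of_pos_right n h4
    rw [h3, List.sum_cons]
    refine ⟨by omega, ?_⟩
    intro h6 y hy
    have h7 : n * cardFactors x = n := by omega
    have h8 : cardFactors x = 1 := by
      have : n * cardFactors x = n * 1 := by omega
      exact Nat.eq_of_mul_eq_mul_left (by omega) this
    rcases List.mem_cons.1 hy with rfl | hy
    · exact cardFactors_eq_one_iff_prime.1 h8
    · exact ih.2 (by omega) y hy

theorem omega_eq : ∀ (u k : List ℕ), k.length = u.length → (∀ x ∈ k, x.Prime) →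
    cardFactors (pw u k) = u.sum
  | [], [], _, _ => by simp
  | [], x :: k, h, _ => by simp at h
  | n :: u, [], h, _ => by simp at h
  | n :: u, x :: k, h, hk => by
    have ih := omega_eq u k (by simpa using h) (fun y hy => hk y (by simp [hy]))
    have hx : x.Prime := hk x (by simp)
    have h1 : pw u k ≠ 0 := by
      have := pw_pos u k fun y hy => (hk y (by simp [hy])).one_le
      omega
    have h2 : x ^ n ≠ 0 := pow_ne_zero _ hx.ne_zero
    rw [pw_cons, cardFactors_mul h2 h1, cardFactors_pow, ih, cardFactors_eq_one_iff_prime.2 hx,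
      List.sum_cons, mul_one]

theorem mem_of_dvd {p : ℕ} (hp : p.Prime) : ∀ (u k : List ℕ), (∀ x ∈ k, x.Prime) → p ∣ pw u k → p ∈ k
  | [], k, _, h => by
    rw [pw_nil] at h
    exact absurd (Nat.dvd_one.1 h) hp.ne_one
  | n :: u, [], _, h => by
    simp only [pw, List.zipWith_nil_left, List.prod_nil] at h
    exact absurd (Nat.dvd_one.1 h) hp.ne_one
  | n :: u, x :: k, hk, h => by
    rw [pw_cons] at h
    rcases (Nat.Prime.dvd_mul hp).1 h with h | h
    · have h1 : p ∣ x := hp.dvd_of_dvd_pow h
      have h2 := (Nat.prime_dvd_prime_iff_eq hp (hk x (by simp))).1 h1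
      simp [h2]
    · have := mem_of_dvd hp u k (fun y hy => hk y (by simp [hy])) h
      simp [this]

theorem unique : ∀ (u k u' k' : List ℕ), k.length = u.length → k'.length = u'.length →
    (∀ n ∈ u, 1 ≤ n) → (∀ n ∈ u', 1 ≤ n) → (∀ x ∈ k, x.Prime) → (∀ x ∈ k', x.Prime) →
    k.Pairwise (· > ·) → k'.Pairwise (· > ·) → pw u k = pw u' k' → u = u' ∧ k = k'
  | [], [], [], [], _, _, _, _, _, _, _, _, _ => ⟨rfl, rfl⟩
  | [], [], n' :: u', x' :: k', _, _, _, hu', _, hk', _, _, h => by
    exfalso
    rw [pw_nil, pw_cons] at h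
    have hx := hk' x' (by simp)
    have hn := hu' n' (by simp)
    have h1 : x' ∣ 1 := by
      rw [h]
      exact Dvd.dvd.mul_right (dvd_pow_self x' (by omega)) _
    exact hx.ne_one (Nat.dvd_one.1 h1)
  | n :: u, x :: k, [], [], _, _, hu, _, hk, _, _, _, h => by
    exfalso
    rw [pw_nil, pw_cons] at h
    have hx := hk x (by simp)
    have hn := hu n (by simp)
    have h1 : x ∣ 1 := by
      rw [← h]
      exact Dvd.dvd.mul_right (dvd_pow_self x (by omega)) _
    exact hx.ne_one (Nat.dvd_one.1 h1)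
  | n :: u, x :: k, n' :: u', x' :: k', hl, hl', hu, hu', hk, hk', hp, hp', h => by
    have hx := hk x (by simp)
    have hx' := hk' x' (by simp)
    have hn := hu n (by simp)
    have hn' := hu' n' (by simp)
    rw [List.pairwise_cons] at hp hp'
    have d1 : x ∣ pw (n' :: u') (x' :: k') := by
      rw [← h, pw_cons]
      exact Dvd.dvd.mul_right (dvd_pow_self x (by omega)) _
    have d2 : x' ∣ pw (n :: u) (x :: k) := by
      rw [h, pw_cons]
      exact Dvd.dvd.mul_right (dvd_pow_self x' (by omega)) _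
    have m1 := mem_of_dvd hx _ _ hk' d1
    have m2 := mem_of_dvd hx' _ _ hk d2
    have e : x = x' := by
      rcases List.mem_cons.1 m1 with h1 | h1
      · exact h1
      · rcases List.mem_cons.1 m2 with h2 | h2
        · exact h2.symm
        · have h3 := hp'.1 x h1
          have h4 := hp.1 x' h2
          omega
    subst e
    have nd : ¬ x ∣ pw u k := fun hd => by
      have := mem_of_dvd hx u k (fun y hy => hk y (by simp [hy])) hd
      exact lt_irrefl _ (hp.1 x this)
    have nd' : ¬ x ∣ pw u' k' := fun hd => by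
      have := mem_of_dvd hx u' k' (fun y hy => hk' y (by simp [hy])) hd
      exact lt_irrefl _ (hp'.1 x this)
    rw [pw_cons, pw_cons] at h
    have e1 : n = n' := by
      have h1 : (x ^ n * pw u k).factorization x = n := by
        rw [Nat.factorization_mul (pow_ne_zero _ hx.ne_zero) (fun h0 => nd (by rw [h0]; exact dvd_zero x))]
        simp [hx.factorization_pow, Nat.factorization_eq_zero_of_not_dvd nd]
      have h2 : (x ^ n' * pw u' k').factorization x = n' := by
        rw [Nat.factorization_mul (pow_ne_zero _ hx.ne_zero) (fun h0 => nd' (by rw [h0]; exact dvd_zero x))]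
        simp [hx.factorization_pow, Nat.factorization_eq_zero_of_not_dvd nd']
      rw [← h1, ← h2, h]
    subst e1
    have h3 : pw u k = pw u' k' := Nat.eq_of_mul_eq_mul_left (pow_pos hx.pos n) h
    have ih := unique u k u' k' (by simpa using hl) (by simpa using hl')
      (fun y hy => hu y (by simp [hy])) (fun y hy => hu' y (by simp [hy]))
      (fun y hy => hk y (by simp [hy])) (fun y hy => hk' y (by simp [hy])) hp.2 hp'.2 h3
    exact ⟨by rw [ih.1], by rw [ih.2]⟩

theorem exists_primes : ∀ r : ℕ, ∃ k : List ℕ, k.length = r ∧ k.Pairwise (· > ·) ∧ ∀ x ∈ k, x.Prime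
  | 0 => ⟨[], by simp⟩
  | r + 1 => by
    obtain ⟨k, h1, h2, h3⟩ := exists_primes r
    obtain ⟨p, hp, hpp⟩ := Nat.exists_infinite_primes (k.sum + 1)
    refine ⟨p :: k, by simp [h1], ?_, ?_⟩
    · rw [List.pairwise_cons]
      refine ⟨fun x hx => ?_, h2⟩
      have := List.single_le_sum (fun _ _ => Nat.zero_le _) x hx
      exact lt_of_le_of_lt this (by omega)
    · intro x hx
      rcases List.mem_cons.1 hx with rfl | hx
      · exact hpp
      · exact h3 x hx

/-! ### summability -/

theorem summable_pw {q : ℕ} {t : ℝ} (ht : 1 < t * q) : ∀ w : List ℕ, (∀ n ∈ w, q ≤ n) →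
    Summable (fun k : Tuples w => (pw w k.1 : ℝ) ^ (-t))
  | [], _ => by
    have : Finite (Tuples []) := by
      refine Set.Finite.to_subtype (Set.Finite.subset (Set.finite_singleton []) ?_)
      intro k hk
      exact List.length_eq_zero_iff.1 hk.1
    exact Summable.of_finite
  | n :: w, hw => by
    have hq0 : (0 : ℝ) ≤ q := Nat.cast_nonneg _
    have ht0 : 0 < t := by
      by_contra h
      nlinarith
    have ih := summable_pw ht w fun m hm => hw m (by simp [hm])
    have h1 : Summable (fun m : ℕ => (m : ℝ) ^ (-(t * q))) := Real.summable_nat_rpow.2 (by linarith)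
    have h2 := h1.mul_of_nonneg ih (fun m => Real.rpow_nonneg (Nat.cast_nonneg m) _)
      (fun k => Real.rpow_nonneg (Nat.cast_nonneg _) _)
    have hmem : ∀ k : Tuples (n :: w), k.1.tail ∈ Tuples w := by
      rintro ⟨k, hk1, hk2, hk3⟩
      cases k with
      | nil => simp at hk1
      | cons x l =>
        rw [List.pairwise_cons] at hk2
        exact ⟨by simpa using hk1, hk2.2, fun y hy => hk3 y (List.mem_cons_of_mem _ hy)⟩
    let i : Tuples (n :: w) → ℕ × Tuples w := fun k => (k.1.headD 0, ⟨k.1.tail, hmem k⟩)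
    have hi : Function.Injective i := by
      rintro ⟨k, hk1, hk2, hk3⟩ ⟨k', hk1', hk2', hk3'⟩ h
      cases k with
      | nil => simp at hk1
      | cons x l =>
        cases k' with
        | nil => simp at hk1'
        | cons x' l' =>
          simp only [i, Prod.mk.injEq, Subtype.mk.injEq, List.headD_cons, List.tail_cons] at h
          simp [h.1, h.2]
    refine Summable.of_nonneg_of_le (fun k => Real.rpow_nonneg (Nat.cast_nonneg _) _) ?_
      (h2.comp_injective hi)
    rintro ⟨k, hk1, hk2, hk3⟩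
    cases k with
    | nil => simp at hk1
    | cons x l =>
      have hx : 1 ≤ x := hk3 x (by simp)
      have hx1 : (1 : ℝ) ≤ x := by exact_mod_cast hx
      simp only [Function.comp, i, List.headD_cons, List.tail_cons, pw_cons]
      push_cast
      rw [Real.mul_rpow (by positivity) (by positivity)]
      refine mul_le_mul_of_nonneg_right ?_ (by positivity)
      rw [← Real.rpow_natCast, ← Real.rpow_mul (by positivity)]
      refine Real.rpow_le_rpow_of_exponent_le hx1 ?_
      have h3 : (q : ℝ) ≤ n := by exact_mod_cast hw n (by simp)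
      nlinarith

/-! ### counting -/

/-- the tuples with `k_1 ^ n_1 ⋯ k_r ^ n_r = m` -/
def Cs (w : List ℕ) (m : ℕ) : Set (List ℕ) := {k | k ∈ Tuples w ∧ pw w k = m}

/-- the same with `k_r ≥ 2` -/
def Ss (w : List ℕ) (m : ℕ) : Set (List ℕ) := {k | k ∈ Tuples w ∧ pw w k = m ∧ ∀ x ∈ k, 2 ≤ x}

theorem finite_Cs (w : List ℕ) (hw : ∀ n ∈ w, 1 ≤ n) (m : ℕ) (hm : 1 ≤ m) : (Cs w m).Finite := by
  have h := summable_pw (q := 1) (t := 2) (by norm_num) w hw
  by_contra hinf
  have hinf : (Cs w m).Infinite := hinf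
  have := hinf.to_subtype
  let j : Cs w m → Tuples w := fun k => ⟨k.1, k.2.1⟩
  have hj : Function.Injective j := fun a b hab => by
    have := congrArg Subtype.val hab
    exact Subtype.ext this
  have h1 := h.comp_injective hj
  have h2 : ((fun k : Tuples w => (pw w k.1 : ℝ) ^ (-(2 : ℝ))) ∘ j) = fun _ => (m : ℝ) ^ (-(2 : ℝ)) := by
    funext k
    simp only [Function.comp, j]
    rw [k.2.2]
  rw [h2, summable_const_iff] at h1
  have h3 : (0 : ℝ) < (m : ℝ) ^ (-(2 : ℝ)) := Real.rpow_pos_of_pos (by exact_mod_cast hm) _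
  linarith

theorem Ss_subset (w : List ℕ) (m : ℕ) : Ss w m ⊆ Cs w m := fun _ h => ⟨h.1, h.2.1⟩

theorem card_concat (u : List ℕ) (x m : ℕ) (hu : ∀ n ∈ u ++ [x], 1 ≤ n) (hm : 1 ≤ m) :
    (Cs (u ++ [x]) m).ncard = (Ss (u ++ [x]) m).ncard + (Ss u m).ncard := by
  have h1 : Cs (u ++ [x]) m = Ss (u ++ [x]) m ∪ (fun l => l ++ [1]) '' Ss u m := by
    ext k
    constructor
    · rintro ⟨⟨hk1, hk2, hk3⟩, hk4⟩
      rcases List.eq_nil_or_concat k with rfl | ⟨l, y, rfl⟩
      · simp at hk1
      · rw [List.concat_eq_append] at hk1 hk2 hk3 hk4 ⊢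
        have hl : l.length = u.length := by simpa using hk1
        rw [List.pairwise_append] at hk2
        by_cases hy : y = 1
        · right
          subst hy
          rw [pw_concat _ _ _ _ hl, one_pow, mul_one] at hk4
          refine ⟨l, ⟨⟨hl, hk2.1, fun z hz => hk3 z (by simp [hz])⟩, hk4, ?_⟩, rfl⟩
          intro z hz
          have := hk2.2.2 z hz 1 (by simp)
          omega
        · left
          refine ⟨⟨hk1, List.pairwise_append.2 hk2, hk3⟩, hk4, ?_⟩
          have hy1 : 1 ≤ y := hk3 y (by simp)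
          intro z hz
          rcases List.mem_append.1 hz with hz | hz
          · have := hk2.2.2 z hz y (by simp)
            omega
          · have : z = y := by simpa using hz
            omega
    · rintro (h | ⟨l, ⟨⟨hl1, hl2, hl3⟩, hl4, hl5⟩, rfl⟩)
      · exact Ss_subset _ _ h
      · refine ⟨⟨by simp [hl1], ?_, ?_⟩, ?_⟩
        · rw [List.pairwise_append]
          refine ⟨hl2, by simp, ?_⟩
          intro a ha b hb
          have hb1 : b = 1 := by simpa using hb
          have := hl5 a ha
          omega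
        · intro z hz
          rcases List.mem_append.1 hz with hz | hz
          · exact hl3 z hz
          · have : z = 1 := by simpa using hz
            omega
        · simp only
          rw [pw_concat _ _ _ _ hl1, hl4]
          simp
  have hdisj : Disjoint (Ss (u ++ [x]) m) ((fun l => l ++ [1]) '' Ss u m) := by
    rw [Set.disjoint_left]
    rintro k hk ⟨l, _, rfl⟩
    have := hk.2.2 1 (by simp)
    omega
  have hf1 : (Ss (u ++ [x]) m).Finite := (finite_Cs _ hu m hm).subset (Ss_subset _ _)
  have hf2 : (Ss u m).Finite :=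
    (finite_Cs u (fun n hn => hu n (by simp [hn])) m hm).subset (Ss_subset _ _)
  rw [h1, Set.ncard_union_eq hdisj hf1 (hf2.image _),
    Set.ncard_image_of_injective _ (List.append_left_injective [1])]

theorem card_nil (m : ℕ) : (Cs [] m).ncard = (Ss [] m).ncard := by
  congr 1
  ext k
  constructor
  · rintro ⟨h1, h2⟩
    refine ⟨h1, h2, ?_⟩
    have : k = [] := List.length_eq_zero_iff.1 h1.1
    simp [this]
  · rintro ⟨h1, h2, _⟩
    exact ⟨h1, h2⟩

theorem card_split (w : List ℕ) (hw : ∀ n ∈ w, 1 ≤ n) (m : ℕ) (hm : 1 ≤ m) :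
    (Cs w m).ncard = (Ss w m).ncard + if w ≠ [] then (Ss w.dropLast m).ncard else 0 := by
  by_cases h : w = []
  · subst h
    simp [card_nil]
  · rw [if_pos h]
    have h1 := List.dropLast_append_getLast h
    have h2 := card_concat w.dropLast (w.getLast h) m (by rw [h1]; exact hw) hm
    rw [h1] at h2
    exact h2

/-! ### the main lemma -/

/-- the coefficient of `m ^ (-t)` in `∑ a_w ζ(t w)` -/
noncomputable def coef (a : List ℕ →₀ ℝ) (m : ℕ) : ℝ := a.sum fun w x => x * (Cs w m).ncard

/-- `a_u` is replaced by `a_u + ∑_x a_{ux}` -/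
noncomputable def shift (a : List ℕ →₀ ℝ) : List ℕ →₀ ℝ :=
  a + (a.filter (fun w => w ≠ [])).mapDomain List.dropLast

theorem shift_support {a : List ℕ →₀ ℝ} (ha : ∀ w ∈ a.support, ∀ n ∈ w, 1 ≤ n) :
    ∀ w ∈ (shift a).support, ∀ n ∈ w, 1 ≤ n := by
  classical
  intro w hw n hn
  rcases Finset.mem_union.1 (Finsupp.support_add hw) with h | h
  · exact ha w h n hn
  · obtain ⟨v, hv, rfl⟩ := Finset.mem_image.1 (Finsupp.mapDomain_support h)
    rw [Finsupp.support_filter, Finset.mem_filter] at hv
    exact ha v hv.1 n (List.mem_of_mem_dropLast hn)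

theorem coef_eq {a : List ℕ →₀ ℝ} (ha : ∀ w ∈ a.support, ∀ n ∈ w, 1 ≤ n) {m : ℕ} (hm : 1 ≤ m) :
    coef a m = (shift a).sum fun w x => x * (Ss w m).ncard := by
  classical
  unfold shift
  rw [Finsupp.sum_add_index' (by simp) (by intros; ring),
    Finsupp.sum_mapDomain_index (by simp) (by intros; ring)]
  unfold coef
  rw [Finsupp.sum_filter_index]
  unfold Finsupp.sum
  rw [Finsupp.support_filter, Finset.sum_filter, ← Finset.sum_add_distrib]
  refine Finset.sum_congr rfl fun w hw => ?_
  simp only []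
  rw [card_split w (ha w hw) m hm]
  push_cast
  split_ifs with h
  · ring
  · simp

theorem shift_ne {a : List ℕ →₀ ℝ} (ha : a ≠ 0) : shift a ≠ 0 := by
  classical
  obtain ⟨w, hw, hmax⟩ := Finset.exists_max_image a.support List.length
    (Finsupp.support_nonempty_iff.2 ha)
  intro h0
  have h1 : shift a w = a w := by
    unfold shift
    rw [Finsupp.add_apply]
    have : (Finsupp.mapDomain List.dropLast (a.filter fun w => w ≠ [])) w = 0 := by
      by_contra hne
      obtain ⟨v, hv, hvw⟩ := Finset.mem_image.1 (Finsupp.mapDomain_support (Finsupp.mem_support_iff.2 hne))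
      rw [Finsupp.support_filter, Finset.mem_filter] at hv
      have h2 := hmax v hv.1
      have h3 : v.length ≠ 0 := fun h => hv.2 (List.length_eq_zero_iff.1 h)
      have h4 : w.length = v.length - 1 := by rw [← hvw, List.length_dropLast]
      omega
    rw [this, add_zero]
  rw [h0, Finsupp.zero_apply] at h1
  exact Finsupp.mem_support_iff.1 hw h1.symm

/-- a decreasing list of `r` primes -/
noncomputable def P (r : ℕ) : List ℕ := (exists_primes r).choose

theorem exists_coef_ne_strong {a : List ℕ →₀ ℝ} (ha : ∀ w ∈ a.support, ∀ n ∈ w, 1 ≤ n) (h0 : a ≠ 0) :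
    ∃ u ∈ (shift a).support, 1 ≤ pw u (P u.length) ∧ coef a (pw u (P u.length)) ≠ 0 := by
  classical
  obtain ⟨u, hu, hmin⟩ := Finset.exists_min_image (shift a).support List.sum
    (Finsupp.support_nonempty_iff.2 (shift_ne h0))
  have hs := shift_support ha
  obtain ⟨hk1, hk2, hk3⟩ := (exists_primes u.length).choose_spec
  change (P u.length).length = _ at hk1
  change (P u.length).Pairwise _ at hk2
  change ∀ x ∈ P u.length, x.Prime at hk3
  refine ⟨u, hu, ?_⟩
  generalize P u.length = k at hk1 hk2 hk3 ⊢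
  have hm : 1 ≤ pw u k := pw_pos u k fun x hx => (hk3 x hx).one_le
  refine ⟨hm, ?_⟩
  rw [coef_eq ha hm]
  have key : ∀ v ∈ (shift a).support, ∀ l ∈ Ss v (pw u k), v = u ∧ l = k := by
    intro v hv l hl
    obtain ⟨⟨hl1, hl2, _⟩, hl4, hl5⟩ := hl
    have h1 := omega_ge v l hl1 (hs v hv) hl5
    rw [hl4, omega_eq u k hk1 hk3] at h1
    have h2 := hmin v hv
    have h3 := h1.2 (le_antisymm h2 h1.1)
    exact unique v l u k hl1 hk1 (hs v hv) (hs u hu) h3 hk3 hl2 hk2 hl4
  have h1 : Ss u (pw u k) = {k} := by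
    ext l
    rw [Set.mem_singleton_iff]
    constructor
    · intro hl
      exact (key u hu l hl).2
    · rintro rfl
      exact ⟨⟨hk1, hk2, fun x hx => (hk3 x hx).one_le⟩, rfl, fun x hx => (hk3 x hx).two_le⟩
  have h2 : (shift a).sum (fun w x => x * ((Ss w (pw u k)).ncard : ℝ)) = shift a u := by
    unfold Finsupp.sum
    rw [Finset.sum_eq_single_of_mem u hu]
    · simp only []
      rw [h1, Set.ncard_singleton, Nat.cast_one, mul_one]
    intro v hv hvu
    simp only []
    have : Ss v (pw u k) = ∅ := by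
      rw [Set.eq_empty_iff_forall_notMem]
      intro l hl
      exact hvu (key v hv l hl).1
    rw [this, Set.ncard_empty, Nat.cast_zero, mul_zero]
  rw [h2]
  exact Finsupp.mem_support_iff.1 hu

theorem exists_coef_ne {a : List ℕ →₀ ℝ} (ha : ∀ w ∈ a.support, ∀ n ∈ w, 1 ≤ n) (h0 : a ≠ 0) :
    ∃ m : ℕ, 1 ≤ m ∧ coef a m ≠ 0 := by
  obtain ⟨u, _, h1, h2⟩ := exists_coef_ne_strong ha h0
  exact ⟨_, h1, h2⟩

/-- for a finite set `S` of words finitely many `m` suffice -/
theorem exists_coef_ne_le (S : Finset (List ℕ)) : ∃ M : ℕ, 1 ≤ M ∧ ∀ a : List ℕ →₀ ℝ, a.support ⊆ S →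
    (∀ w ∈ a.support, ∀ n ∈ w, 1 ≤ n) → a ≠ 0 → ∃ m : ℕ, 1 ≤ m ∧ m ≤ M ∧ coef a m ≠ 0 := by
  classical
  refine ⟨1 + ∑ u ∈ S ∪ S.image List.dropLast, pw u (P u.length), by omega, ?_⟩
  intro a haS ha h0
  obtain ⟨u, hu, h1, h2⟩ := exists_coef_ne_strong ha h0
  refine ⟨_, h1, ?_, h2⟩
  have hmem : u ∈ S ∪ S.image List.dropLast := by
    rcases Finset.mem_union.1 (Finsupp.support_add hu) with h | h
    · exact Finset.mem_union_left _ (haS h)
    · obtain ⟨v, hv, rfl⟩ := Finset.mem_image.1 (Finsupp.mapDomain_support h)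
      rw [Finsupp.support_filter, Finset.mem_filter] at hv
      exact Finset.mem_union_right _ (Finset.mem_image_of_mem _ (haS hv.1))
  have := Finset.single_le_sum (f := fun u => pw u (P u.length)) (fun _ _ => Nat.zero_le _) hmem
  omega

end Pool.Agent.V7H97.SH
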