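import Mathlib
import Pool.Agent.V7H97.SH.Comb

set_option autoImplicit false

/-!
# Scaled multiple zeta values: zeros of linear relations
-/

namespace Pool.Agent.V7H97.SH

open Filter Topology

/-- `ζ(t n_1, …, t n_r)`, the sum of the `(k_1 ^ n_1 ⋯ k_r ^ n_r) ^ (-t)` over all `k_1 > … > k_r ≥ 1` -/
noncomputable def Z (t : ℝ) (w : List ℕ) : ℝ := ∑' k : Tuples w, (pw w k.1 : ℝ) ^ (-t)

theorem hasSum_congr' {α : Type} [AddCommMonoid α] [TopologicalSpace α] {f g : ℕ → α} {s : α}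
    (h : ∀ m, f m = g m) : HasSum f s ↔ HasSum g s := by
  rw [funext h]

theorem hasSum_Z {q : ℕ} {t : ℝ} (ht : 1 < t * q) (w : List ℕ) (hw : ∀ n ∈ w, q ≤ n) :
    HasSum (fun m : ℕ => ((Cs w m).ncard : ℝ) * (m : ℝ) ^ (-t)) (Z t w) := by
  have h := (summable_pw ht w hw).hasSum.tsum_fiberwise (fun k : Tuples w => pw w k.1)
  refine (hasSum_congr' fun m => ?_).1 h
  have h1 : ∀ b : ((fun k : Tuples w => pw w k.1) ⁻¹' {m}),
      (pw w b.1.1 : ℝ) ^ (-t) = (m : ℝ) ^ (-t) := fun b => by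
    have : pw w b.1.1 = m := b.2
    rw [this]
  rw [tsum_congr h1, tsum_const, nsmul_eq_mul]
  congr 2
  rw [Nat.card_coe_set_eq, ← Set.ncard_image_of_injective _ Subtype.val_injective]
  congr 1
  ext k
  constructor
  · rintro ⟨b, hb, rfl⟩
    exact ⟨b.2, hb⟩
  · rintro ⟨hk1, hk2⟩
    exact ⟨⟨k, hk1⟩, hk2, rfl⟩

theorem hasSum_comb {q : ℕ} {t : ℝ} (ht : 1 < t * q) (a : List ℕ →₀ ℝ)
    (ha : ∀ w ∈ a.support, ∀ n ∈ w, q ≤ n) :
    HasSum (fun m : ℕ => coef a m * (m : ℝ) ^ (-t)) (a.sum fun w x => x * Z t w) := by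
  unfold coef Finsupp.sum
  simp_rw [Finset.sum_mul]
  refine hasSum_sum fun w hw => ?_
  refine (hasSum_congr' fun m => ?_).1 ((hasSum_Z ht w (ha w hw)).mul_left (a w))
  ring

theorem lseries {q : ℕ} {t : ℝ} (ht0 : 0 < t) (ht : 1 < t * q) (a : List ℕ →₀ ℝ)
    (ha : ∀ w ∈ a.support, ∀ n ∈ w, q ≤ n) :
    LSeriesHasSum (fun m => (coef a m : ℂ)) (t : ℂ) ((a.sum fun w x => x * Z t w : ℝ) : ℂ) := by
  have h := Complex.hasSum_ofReal.2 (hasSum_comb ht a ha)
  refine (hasSum_congr' fun m => ?_).1 h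
  rcases Nat.eq_zero_or_pos m with rfl | hm
  · simp [LSeries.term, Real.zero_rpow (by linarith : -t ≠ 0)]
  · rw [LSeries.term_of_ne_zero hm.ne', Complex.ofReal_mul, Complex.ofReal_cpow (Nat.cast_nonneg m),
      Complex.ofReal_neg, Complex.cpow_neg, div_eq_mul_inv, Complex.ofReal_natCast]

theorem coef_zero (a : List ℕ →₀ ℝ) : coef a 0 = 0 := by
  unfold coef Finsupp.sum
  refine Finset.sum_eq_zero fun w _ => ?_
  have : Cs w 0 = ∅ := by
    rw [Set.eq_empty_iff_forall_notMem]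
    rintro k ⟨hk1, hk2⟩
    have := pw_pos w k hk1.2.2
    omega
  simp [this]

theorem finite_zeros {q : ℕ} (hq : 1 ≤ q) {c : ℝ} (hc : 1 < c * q) (a : List ℕ →₀ ℝ)
    (ha : ∀ w ∈ a.support, ∀ n ∈ w, q ≤ n) (h0 : a ≠ 0) :
    {t : ℝ | c ≤ t ∧ (a.sum fun w x => x * Z t w) = 0}.Finite := by
  classical
  set f : ℕ → ℂ := fun m => (coef a m : ℂ) with hf
  have hq' : (0 : ℝ) < q := by exact_mod_cast hq
  have hdiv : ∀ t : ℝ, 1 / (q : ℝ) < t → 0 < t ∧ 1 < t * q := by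
    intro t ht
    have h1 : 0 < 1 / (q : ℝ) := by positivity
    exact ⟨h1.trans ht, by rwa [div_lt_iff₀ hq'] at ht⟩
  have hs : ∀ t : ℝ, 1 / (q : ℝ) < t →
      LSeriesHasSum f (t : ℂ) ((a.sum fun w x => x * Z t w : ℝ) : ℂ) := fun t ht =>
    lseries (hdiv t ht).1 (hdiv t ht).2 a ha
  have habs : LSeries.abscissaOfAbsConv f ≤ ((1 / (q : ℝ) : ℝ) : EReal) :=
    LSeries.abscissaOfAbsConv_le_of_forall_lt_LSeriesSummable fun y hy => (hs y hy).LSeriesSummable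
  have hlt : LSeries.abscissaOfAbsConv f < ⊤ := lt_of_le_of_lt habs (EReal.coe_lt_top _)
  have hex := exists_coef_ne (fun w hw n hn => hq.trans (ha w hw n hn)) h0
  obtain ⟨hm1, hm2⟩ := Nat.find_spec hex
  obtain ⟨n, hn⟩ : ∃ n, Nat.find hex = n + 1 := ⟨Nat.find hex - 1, by omega⟩
  rw [hn] at hm2
  have hzero : ∀ m ≤ n, f m = 0 := by
    intro m hm
    rcases Nat.eq_zero_or_pos m with rfl | hm0
    · simp [hf, coef_zero]
    · have := Nat.find_min hex (m := m) (by omega)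
      have h1 : coef a m = 0 := by
        by_contra h
        exact this ⟨hm0, h⟩
      simp [hf, h1]
  have htend := LSeries.tendsto_cpow_mul_atTop hzero hlt
  have hne : f (n + 1) ≠ 0 := by
    simp only [hf]
    exact_mod_cast hm2
  have hev := htend.eventually_ne hne
  obtain ⟨T, hT⟩ := eventually_atTop.1 hev
  have hT' : ∀ t : ℝ, T ≤ t → LSeries f t ≠ 0 := fun t ht h => hT t ht (by rw [h, mul_zero])
  set T' := max T c with hT'def
  have hcq : 1 / (q : ℝ) < c := by rwa [div_lt_iff₀ hq']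
  have hTq : 1 / (q : ℝ) < T' := lt_of_lt_of_le hcq (le_max_right _ _)
  by_contra hinf
  have hinf : {t : ℝ | c ≤ t ∧ (a.sum fun w x => x * Z t w) = 0}.Infinite := hinf
  have hLz : ∀ t : ℝ, c ≤ t → (a.sum fun w x => x * Z t w) = 0 → LSeries f t = 0 := by
    intro t ht h
    rw [(hs t (hcq.trans_le ht)).LSeries_eq, h, Complex.ofReal_zero]
  have hsub : {t : ℝ | c ≤ t ∧ (a.sum fun w x => x * Z t w) = 0} ⊆ Set.Icc c T' := by
    rintro t ⟨ht1, ht2⟩
    refine ⟨ht1, ?_⟩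
    by_contra h
    exact hT' t ((le_max_left _ _).trans (not_le.1 h).le) (hLz t ht1 ht2)
  have hinf2 : (Complex.ofReal '' {t : ℝ | c ≤ t ∧ (a.sum fun w x => x * Z t w) = 0}).Infinite :=
    hinf.image Complex.ofReal_injective.injOn
  obtain ⟨z, hzK, hz⟩ := hinf2.exists_accPt_of_subset_isCompact
    (isCompact_Icc.image Complex.continuous_ofReal) (Set.image_mono hsub)
  obtain ⟨x, hx, rfl⟩ := hzK
  have han : AnalyticOnNhd ℂ (LSeries f) {s : ℂ | 1 / (q : ℝ) < s.re} :=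
    (LSeries_analyticOnNhd f).mono fun s hs' => lt_of_le_of_lt habs (by exact_mod_cast hs')
  have hpre : IsPreconnected {s : ℂ | 1 / (q : ℝ) < s.re} :=
    (convex_halfSpace_re_gt _).isPreconnected
  have hfreq : ∃ᶠ z in 𝓝[≠] (x : ℂ), LSeries f z = 0 := by
    rw [accPt_iff_frequently_nhdsNE] at hz
    refine hz.mono ?_
    rintro z ⟨t, ⟨ht1, ht2⟩, rfl⟩
    exact hLz t ht1 ht2
  have hE := han.eqOn_zero_of_preconnected_of_frequently_eq_zero hpre
    (show 1 / (q : ℝ) < ((x : ℝ) : ℂ).re by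
      rw [Complex.ofReal_re]
      exact hcq.trans_le hx.1) hfreq
  have := hE (show 1 / (q : ℝ) < ((T' : ℝ) : ℂ).re by rw [Complex.ofReal_re]; exact hTq)
  exact hT' T' (le_max_left _ _) this

end Pool.Agent.V7H97.SH
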