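import Mathlib
import Pool.Agent.V7H97.SH.Ana

set_option autoImplicit false

/-!
# Scaled multiple zeta values: countable exceptional sets
-/

namespace Pool.Agent.V7H97.SH

open Filter Topology

/-- the words all whose letters are at least `q` -/
abbrev Word (q : ℕ) : Type := {w : List ℕ // ∀ n ∈ w, q ≤ n}

theorem finite_zeros' {q : ℕ} (hq : 1 ≤ q) {c : ℝ} (hc : 1 < c * q) (a : Word q →₀ ℝ) (h0 : a ≠ 0) :
    {t : ℝ | c ≤ t ∧ (a.sum fun w x => x * Z t w.1) = 0}.Finite := by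
  classical
  have h := finite_zeros hq hc (a.mapDomain Subtype.val) ?_ ?_
  · refine h.subset ?_
    rintro t ⟨h1, h2⟩
    refine ⟨h1, ?_⟩
    rw [Finsupp.sum_mapDomain_index (by simp) (by intros; ring)]
    exact h2
  · intro w hw
    obtain ⟨v, _, rfl⟩ := Finset.mem_image.1 (Finsupp.mapDomain_support hw)
    exact v.2
  · intro h
    exact h0 (Finsupp.mapDomain_injective Subtype.val_injective (by rw [h, Finsupp.mapDomain_zero]))

theorem countable_zeros {q : ℕ} (hq : 1 ≤ q) (a : Word q →₀ ℝ) (h0 : a ≠ 0) :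
    {t : ℝ | 1 < t * q ∧ (a.sum fun w x => x * Z t w.1) = 0}.Countable := by
  have hq' : (0 : ℝ) < q := by exact_mod_cast hq
  have hsub : {t : ℝ | 1 < t * q ∧ (a.sum fun w x => x * Z t w.1) = 0} ⊆
      ⋃ n : ℕ, {t : ℝ | 1 / (q : ℝ) + 1 / ((n : ℝ) + 1) ≤ t ∧ (a.sum fun w x => x * Z t w.1) = 0} := by
    rintro t ⟨h1, h2⟩
    have h3 : 1 / (q : ℝ) < t := by rwa [div_lt_iff₀ hq']
    obtain ⟨n, hn⟩ := exists_nat_one_div_lt (sub_pos.2 h3)
    exact Set.mem_iUnion.2 ⟨n, by linarith, h2⟩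
  refine (Set.countable_iUnion fun n => ?_).mono hsub
  refine (finite_zeros' hq ?_ a h0).countable
  have h1 : (0 : ℝ) < 1 / ((n : ℝ) + 1) := by positivity
  have h2 : 1 / (q : ℝ) * q = 1 := by field_simp
  nlinarith

theorem countable_exceptions {q : ℕ} (hq : 1 ≤ q) (K : Type) [Field K] [Algebra K ℝ] [Countable K] :
    {t : ℝ | 1 < t * q ∧ ¬ LinearIndependent K (fun w : Word q => Z t w.1)}.Countable := by
  classical
  have hsub : {t : ℝ | 1 < t * q ∧ ¬ LinearIndependent K (fun w : Word q => Z t w.1)} ⊆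
      ⋃ a : {a : Word q →₀ K // a ≠ 0}, {t : ℝ | 1 < t * q ∧
        ((a.1.mapRange (algebraMap K ℝ) (map_zero _)).sum fun w x => x * Z t w.1) = 0} := by
    rintro t ⟨h1, h2⟩
    rw [linearIndependent_iff] at h2
    push Not at h2
    obtain ⟨a, ha1, ha2⟩ := h2
    refine Set.mem_iUnion.2 ⟨⟨a, ha2⟩, h1, ?_⟩
    rw [Finsupp.sum_mapRange_index (by simp)]
    rw [Finsupp.linearCombination_apply] at ha1
    simpa [Algebra.smul_def] using ha1
  refine (Set.countable_iUnion fun a => ?_).mono hsub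
  refine countable_zeros hq _ ?_
  intro h
  apply a.2
  ext w
  have h1 := DFunLike.congr_fun h w
  rw [Finsupp.mapRange_apply, Finsupp.zero_apply] at h1
  rw [Finsupp.zero_apply]
  exact (map_eq_zero (algebraMap K ℝ)).1 h1

/-- the words in the letters `2` and `3` -/
abbrev Hoffman : Type := {w : List ℕ // ∀ n ∈ w, n = 2 ∨ n = 3}

theorem not_span {K : Type} [Field K] [Algebra K ℝ] {t : ℝ}
    (h : LinearIndependent K (fun w : Word 2 => Z t w.1)) :
    Z t [4] ∉ Submodule.span K (Set.range fun w : Hoffman => Z t w.1) := by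
  have h1 := h.notMem_span_image (s := {w : Word 2 | ∀ n ∈ w.1, n = 2 ∨ n = 3})
    (x := ⟨[4], by simp⟩) (by simp)
  intro h2
  apply h1
  refine Submodule.span_mono ?_ h2
  rintro _ ⟨w, rfl⟩
  refine ⟨⟨w.1, fun n hn => ?_⟩, w.2, rfl⟩
  have := w.2 n hn
  omega

end Pool.Agent.V7H97.SH
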