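import Mathlib
import Pool.Agent.V7H97.SH.Fin

set_option autoImplicit false

/-!
# Scaled multiple zeta values: lower bound for the maximum on an interval
-/

namespace Pool.Agent.V7H97.SH

open Filter Topology

theorem coef_single (w : List ℕ) (m : ℕ) : coef (Finsupp.single w 1) m = (Cs w m).ncard := by
  unfold coef
  rw [Finsupp.sum_single_index (by simp), one_mul]

theorem continuousOn_Z {q : ℕ} (hq : 1 ≤ q) (w : List ℕ) (hw : ∀ n ∈ w, q ≤ n) :
    ContinuousOn (fun t : ℝ => Z t w) {t : ℝ | 1 < t * q} := by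
  classical
  have hq' : (0 : ℝ) < q := by exact_mod_cast hq
  set f : ℕ → ℂ := fun m => (coef (Finsupp.single w 1) m : ℂ) with hf
  have hs : ∀ t : ℝ, 1 / (q : ℝ) < t → LSeriesHasSum f (t : ℂ) ((Z t w : ℝ) : ℂ) := by
    intro t ht
    have h1 : 0 < 1 / (q : ℝ) := by positivity
    have h2 := lseries (q := q) (h1.trans ht) (by rwa [div_lt_iff₀ hq'] at ht)
      (Finsupp.single w 1) (fun v hv => by
        have : v = w := by
          by_contra h
          exact (Finsupp.mem_support_iff.1 hv) (Finsupp.single_eq_of_ne h)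
        rw [this]
        exact hw)
    rwa [Finsupp.sum_single_index (by simp), one_mul] at h2
  have habs : LSeries.abscissaOfAbsConv f ≤ ((1 / (q : ℝ) : ℝ) : EReal) :=
    LSeries.abscissaOfAbsConv_le_of_forall_lt_LSeriesSummable fun y hy => (hs y hy).LSeriesSummable
  have han : ContinuousOn (LSeries f) {s : ℂ | 1 / (q : ℝ) < s.re} :=
    ((LSeries_analyticOnNhd f).mono fun s hs' => lt_of_le_of_lt habs (by exact_mod_cast hs')).continuousOn
  have hcomp : ContinuousOn (fun t : ℝ => (LSeries f (t : ℂ)).re) {t : ℝ | 1 < t * q} := by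
    refine Complex.continuous_re.comp_continuousOn (han.comp Complex.continuous_ofReal.continuousOn ?_)
    intro t ht
    show 1 / (q : ℝ) < ((t : ℝ) : ℂ).re
    rw [Complex.ofReal_re, div_lt_iff₀ hq']
    exact ht
  refine hcomp.congr fun t ht => ?_
  have : 1 / (q : ℝ) < t := by rw [div_lt_iff₀ hq']; exact ht
  show Z t w = (LSeries f (t : ℂ)).re
  rw [(hs t this).LSeries_eq, Complex.ofReal_re]

/-- the maximum on an interval is at least `δ ‖a‖` -/
theorem exists_delta {q : ℕ} (hq : 1 ≤ q) (S : Finset (Word q)) {x y : ℝ} (hx : 1 < x * q) (hxy : x < y) :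
    ∃ δ : ℝ, 0 < δ ∧ ∀ a : S → ℝ, ∃ t ∈ Set.Icc x y, δ * ‖a‖ ≤ |∑ w, a w * Z t w.1.1| := by
  classical
  have hq' : (0 : ℝ) < q := by exact_mod_cast hq
  have hc : ∀ w : S, Continuous fun t : Set.Icc x y => Z t.1 w.1.1 := by
    intro w
    have hsub : Set.Icc x y ⊆ {t : ℝ | 1 < t * q} := fun t ht => by
      have := ht.1
      show 1 < t * q
      nlinarith
    exact continuousOn_iff_continuous_restrict.1 ((continuousOn_Z hq w.1.1 w.1.2).mono hsub)
  let L : (S → ℝ) →ₗ[ℝ] C(Set.Icc x y, ℝ) :=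
    { toFun := fun a => ⟨fun t => ∑ w, a w * Z t.1 w.1.1,
        continuous_finsetSum _ fun w _ => continuous_const.mul (hc w)⟩
      map_add' := fun a b => by
        ext t
        simp [add_mul, Finset.sum_add_distrib]
      map_smul' := fun c a => by
        ext t
        simp [Finset.mul_sum, mul_assoc] }
  have hker : LinearMap.ker L = ⊥ := by
    rw [LinearMap.ker_eq_bot']
    intro a ha
    by_contra hne
    let b : Word q →₀ ℝ := Finsupp.indicator S fun w hw => a ⟨w, hw⟩
    have hbv : ∀ w : S, b w.1 = a w := fun w => Finsupp.indicator_of_mem w.2 _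
    have hb0 : b ≠ 0 := by
      intro h
      apply hne
      funext w
      rw [← hbv w, h]
      rfl
    have hfin := finite_zeros' hq hx b hb0
    refine (Set.Icc_infinite hxy) (hfin.subset ?_)
    intro t ht
    refine ⟨ht.1, ?_⟩
    rw [Finsupp.sum_of_support_subset _ (Finsupp.support_indicator_subset S _) _ (by simp)]
    rw [← Finset.sum_coe_sort S (fun w => b w * Z t w.1)]
    have h1 := DFunLike.congr_fun ha ⟨t, ht⟩
    simp only [L, LinearMap.coe_mk, AddHom.coe_mk, ContinuousMap.coe_mk, ContinuousMap.zero_apply] at h1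
    rw [← h1]
    exact Finset.sum_congr rfl fun w _ => by rw [hbv w]
  obtain ⟨K, hK, hanti⟩ := L.exists_antilipschitzWith hker
  have hK' : (0 : ℝ) < K := by exact_mod_cast hK
  refine ⟨1 / (2 * K), by positivity, ?_⟩
  intro a
  by_contra hcon
  push Not at hcon
  have h1 : ‖L a‖ ≤ 1 / (2 * K) * ‖a‖ := by
    rw [ContinuousMap.norm_le _ (by positivity)]
    intro t
    have := hcon t.1 t.2
    rw [Real.norm_eq_abs]
    exact this.le
  have h2 : ‖a‖ ≤ K * ‖L a‖ := by
    have := hanti.le_mul_dist a 0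
    rwa [map_zero, dist_zero_right, dist_zero_right] at this
  have h3 : ‖a‖ ≤ 1 / 2 * ‖a‖ := by
    calc ‖a‖ ≤ K * ‖L a‖ := h2
      _ ≤ K * (1 / (2 * K) * ‖a‖) := mul_le_mul_of_nonneg_left h1 hK'.le
      _ = 1 / 2 * ‖a‖ := by field_simp
  have h4 : ‖a‖ = 0 := le_antisymm (by linarith [norm_nonneg a]) (norm_nonneg a)
  have := hcon x ⟨le_rfl, hxy.le⟩
  rw [h4, mul_zero] at this
  exact absurd this (not_lt.2 (abs_nonneg _))

end Pool.Agent.V7H97.SH
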