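import Mathlib
import Pool.Agent.V7H97.SH.Low
import Pool.Agent.Helper960.Crg.Min

set_option autoImplicit false

/-!
# Scaled multiple zeta values: sublevel sets
-/

namespace Pool.Agent.V7H97.SH

open Filter Topology MeasureTheory

/-- the exceptional set of the minimum modulus theorem on the real line -/
theorem meas_balls (x r κ : ℝ) (hr : 0 < r) (T : Finset (ℂ × ℝ)) (hT : ∀ p ∈ T, 0 < p.2)
    (hκ : ∑ p ∈ T, p.2 ≤ κ) :
    volume {t : ℝ | ∃ p ∈ T, (((t - x) / r : ℝ) : ℂ) ∈ Metric.closedBall p.1 p.2} ≤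
      ENNReal.ofReal (2 * r * κ) := by
  have h1 : {t : ℝ | ∃ p ∈ T, (((t - x) / r : ℝ) : ℂ) ∈ Metric.closedBall p.1 p.2} ⊆
      ⋃ p ∈ T, Set.Icc (x + r * (p.1.re - p.2)) (x + r * (p.1.re + p.2)) := by
    rintro t ⟨p, hp, ht⟩
    rw [Set.mem_iUnion₂]
    refine ⟨p, hp, ?_⟩
    rw [mem_closedBall_iff_norm] at ht
    have h2 := (Complex.abs_re_le_norm _).trans ht
    rw [Complex.sub_re, Complex.ofReal_re, abs_le] at h2
    have h3 : t = x + r * ((t - x) / r) := by field_simp; ring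
    rw [h3]
    constructor
    · have := mul_le_mul_of_nonneg_left (show p.1.re - p.2 ≤ (t - x) / r by linarith [h2.1]) hr.le
      have e : r * ((x + r * ((t - x) / r) - x) / r) = r * ((t - x) / r) := by field_simp; ring
      linarith
    · have := mul_le_mul_of_nonneg_left (show (t - x) / r ≤ p.1.re + p.2 by linarith [h2.2]) hr.le
      linarith
  calc volume {t : ℝ | ∃ p ∈ T, (((t - x) / r : ℝ) : ℂ) ∈ Metric.closedBall p.1 p.2}
      ≤ volume (⋃ p ∈ T, Set.Icc (x + r * (p.1.re - p.2)) (x + r * (p.1.re + p.2))) := measure_mono h1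
    _ ≤ ∑ p ∈ T, volume (Set.Icc (x + r * (p.1.re - p.2)) (x + r * (p.1.re + p.2))) :=
        measure_biUnion_finset_le _ _
    _ = ∑ p ∈ T, ENNReal.ofReal (2 * r * p.2) := by
        refine Finset.sum_congr rfl fun p _ => ?_
        rw [Real.volume_Icc]
        congr 1
        ring
    _ = ENNReal.ofReal (∑ p ∈ T, 2 * r * p.2) :=
        (ENNReal.ofReal_sum_of_nonneg fun p hp => by have := hT p hp; positivity).symm
    _ ≤ ENNReal.ofReal (2 * r * κ) := by
        apply ENNReal.ofReal_le_ofReal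
        rw [← Finset.mul_sum]
        exact mul_le_mul_of_nonneg_left hκ (by positivity)

/-- the coefficients of the sum with coefficients `a` -/
noncomputable def cf {q : ℕ} {S : Finset (Word q)} (a : S → ℝ) (m : ℕ) : ℝ :=
  ∑ w, a w * ((Cs w.1.1 m).ncard : ℝ)

/-- the sum of the numbers of tuples -/
noncomputable def dm {q : ℕ} (S : Finset (Word q)) (m : ℕ) : ℝ := ∑ w : S, ((Cs w.1.1 m).ncard : ℝ)

theorem cf_le {q : ℕ} {S : Finset (Word q)} (a : S → ℝ) (m : ℕ) : |cf a m| ≤ ‖a‖ * dm S m := by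
  unfold cf dm
  rw [Finset.mul_sum]
  refine (Finset.abs_sum_le_sum_abs _ _).trans (Finset.sum_le_sum fun w _ => ?_)
  rw [abs_mul, Nat.abs_cast]
  exact mul_le_mul_of_nonneg_right (norm_le_pi_norm a w) (Nat.cast_nonneg _)

theorem hasSum_cf {q : ℕ} {S : Finset (Word q)} (a : S → ℝ) {t : ℝ} (ht : 1 < t * q) :
    HasSum (fun m : ℕ => cf a m * (m : ℝ) ^ (-t)) (∑ w, a w * Z t w.1.1) := by
  unfold cf
  simp_rw [Finset.sum_mul]
  refine hasSum_sum fun w _ => ?_
  refine (hasSum_congr' fun m => ?_).1 ((hasSum_Z ht w.1.1 w.1.2).mul_left (a w))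
  ring

theorem hasSum_dm {q : ℕ} (S : Finset (Word q)) {t : ℝ} (ht : 1 < t * q) :
    HasSum (fun m : ℕ => dm S m * (m : ℝ) ^ (-t)) (∑ w : S, Z t w.1.1) := by
  unfold dm
  simp_rw [Finset.sum_mul]
  exact hasSum_sum fun w _ => hasSum_Z ht w.1.1 w.1.2

/-- the first `N` terms as an entire function -/
noncomputable def G {q : ℕ} {S : Finset (Word q)} (a : S → ℝ) (N : ℕ) (s : ℂ) : ℂ :=
  ∑ m ∈ (Finset.range N).filter (fun m => 0 < m), (cf a m : ℂ) * (m : ℂ) ^ (-s)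

theorem G_diff {q : ℕ} {S : Finset (Word q)} (a : S → ℝ) (N : ℕ) : Differentiable ℂ (G a N) := by
  unfold G
  refine Differentiable.fun_sum fun m hm => ?_
  have hm0 : (m : ℂ) ≠ 0 := by
    have := (Finset.mem_filter.1 hm).2
    exact_mod_cast this.ne'
  exact (differentiable_const _).mul (differentiable_id.neg.const_cpow (Or.inl hm0))

theorem G_bound {q : ℕ} {S : Finset (Word q)} (a : S → ℝ) (N : ℕ) {σ : ℝ} (hσ : 1 < σ * q) {s : ℂ}
    (hs : σ ≤ s.re) : ‖G a N s‖ ≤ ‖a‖ * ∑ w : S, Z σ w.1.1 := by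
  have h := hasSum_dm S hσ
  calc ‖G a N s‖ ≤ ∑ m ∈ (Finset.range N).filter (fun m => 0 < m), ‖(cf a m : ℂ) * (m : ℂ) ^ (-s)‖ :=
        norm_sum_le _ _
    _ ≤ ∑ m ∈ (Finset.range N).filter (fun m => 0 < m), ‖a‖ * (dm S m * (m : ℝ) ^ (-σ)) := by
        refine Finset.sum_le_sum fun m hm => ?_
        have hm0 := (Finset.mem_filter.1 hm).2
        have hm1 : (1 : ℝ) ≤ m := by exact_mod_cast hm0
        rw [norm_mul, Complex.norm_real, Real.norm_eq_abs, Complex.norm_natCast_cpow_of_pos hm0,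
          Complex.neg_re, ← mul_assoc]
        refine mul_le_mul (cf_le a m) (Real.rpow_le_rpow_of_exponent_le hm1 (by linarith))
          (by positivity) ?_
        exact mul_nonneg (norm_nonneg _) (Finset.sum_nonneg fun _ _ => Nat.cast_nonneg _)
    _ = ‖a‖ * ∑ m ∈ (Finset.range N).filter (fun m => 0 < m), dm S m * (m : ℝ) ^ (-σ) := by
        rw [Finset.mul_sum]
    _ ≤ ‖a‖ * ∑ w : S, Z σ w.1.1 := by
        refine mul_le_mul_of_nonneg_left ?_ (norm_nonneg _)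
        refine sum_le_hasSum _ (fun m _ => ?_) h
        exact mul_nonneg (Finset.sum_nonneg fun _ _ => Nat.cast_nonneg _)
          (Real.rpow_nonneg (Nat.cast_nonneg _) _)

/-- uniform approximation on the real line to the right of `σ` -/
theorem G_approx {q : ℕ} (S : Finset (Word q)) {σ : ℝ} (hσ0 : 0 < σ) (hσ : 1 < σ * q) {ε : ℝ} (hε : 0 < ε) :
    ∃ N : ℕ, ∀ a : S → ℝ, ∀ t : ℝ, σ ≤ t →
      |(∑ w, a w * Z t w.1.1)| ≤ ‖G a N t‖ + ‖a‖ * ε ∧ ‖G a N t‖ ≤ |∑ w, a w * Z t w.1.1| + ‖a‖ * ε := by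
  have h := hasSum_dm S hσ
  have h1 := h.tendsto_sum_nat
  obtain ⟨N, hN⟩ := ((Metric.tendsto_atTop.1 h1) ε hε)
  refine ⟨N, fun a t ht => ?_⟩
  have hq0 : (0 : ℝ) ≤ q := Nat.cast_nonneg _
  have htq : 1 < t * q := by nlinarith
  have hF := hasSum_cf a htq
  -- the real partial sum
  have hG : G a N t = ((∑ m ∈ Finset.range N, cf a m * (m : ℝ) ^ (-t) : ℝ) : ℂ) := by
    unfold G
    rw [Finset.sum_filter]
    push_cast
    refine Finset.sum_congr rfl fun m _ => ?_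
    rcases Nat.eq_zero_or_pos m with rfl | hm
    · simp [Real.zero_rpow (by linarith : -t ≠ 0)]
    · rw [if_pos hm, Complex.ofReal_cpow (Nat.cast_nonneg m)]
      push_cast
      rfl
  have hsub : HasSum (fun m : ℕ => cf a (m + N) * ((m + N : ℕ) : ℝ) ^ (-t))
      ((∑ w, a w * Z t w.1.1) - ∑ m ∈ Finset.range N, cf a m * (m : ℝ) ^ (-t)) :=
    (hasSum_nat_add_iff' (f := fun m : ℕ => cf a m * (m : ℝ) ^ (-t)) N).2 hF
  have hsub2 : HasSum (fun m : ℕ => dm S (m + N) * ((m + N : ℕ) : ℝ) ^ (-σ))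
      ((∑ w : S, Z σ w.1.1) - ∑ m ∈ Finset.range N, dm S m * (m : ℝ) ^ (-σ)) :=
    (hasSum_nat_add_iff' (f := fun m : ℕ => dm S m * (m : ℝ) ^ (-σ)) N).2 h
  have hb := hsub.norm_le_of_bounded (hsub2.mul_left ‖a‖) (by
    intro m
    rw [Real.norm_eq_abs, abs_mul, ← mul_assoc]
    have hd : 0 ≤ dm S (m + N) := Finset.sum_nonneg fun _ _ => Nat.cast_nonneg _
    rcases Nat.eq_zero_or_pos (m + N) with h0 | h0
    · rw [h0]
      simp [Real.zero_rpow (by linarith : -t ≠ 0), Real.zero_rpow (by linarith : -σ ≠ 0)]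
    · have hm1 : (1 : ℝ) ≤ ((m + N : ℕ) : ℝ) := by exact_mod_cast h0
      refine mul_le_mul (cf_le a _) ?_ (abs_nonneg _) (mul_nonneg (norm_nonneg _) hd)
      rw [abs_of_nonneg (by positivity)]
      exact Real.rpow_le_rpow_of_exponent_le hm1 (by linarith))
  have hN' := hN N le_rfl
  rw [Real.dist_eq, abs_sub_comm] at hN'
  have hN2 := (le_abs_self _).trans hN'.le
  have hb2 : |(∑ w, a w * Z t w.1.1) - ∑ m ∈ Finset.range N, cf a m * (m : ℝ) ^ (-t)| ≤ ‖a‖ * ε := by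
    rw [← Real.norm_eq_abs]
    exact hb.trans (mul_le_mul_of_nonneg_left hN2 (norm_nonneg _))
  rw [hG, Complex.norm_real, Real.norm_eq_abs]
  constructor
  · have := abs_sub_abs_le_abs_sub (∑ w, a w * Z t w.1.1) (∑ m ∈ Finset.range N, cf a m * (m : ℝ) ^ (-t))
    linarith
  · have := abs_sub_abs_le_abs_sub (∑ m ∈ Finset.range N, cf a m * (m : ℝ) ^ (-t)) (∑ w, a w * Z t w.1.1)
    rw [abs_sub_comm] at this
    linarith

end Pool.Agent.V7H97.SH
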