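import Mathlib
import Pool.Agent.V7H97.SH.Sub

set_option autoImplicit false

/-!
# Scaled multiple zeta values: linear independence measures for almost every `t`
-/

namespace Pool.Agent.V7H97.SH

open Filter Topology MeasureTheory

/-- the factor of the minimum modulus theorem -/
noncomputable def eta (m κ : ℝ) : ℝ := Real.exp (-((4 + 4 * Real.log (72 / κ)) * m))

theorem sublevel {q : ℕ} (hq : 1 ≤ q) (S : Finset (Word q)) {x r : ℝ} (hr : 0 < r) (hx : 1 < (x - 5 * r) * q) :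
    ∃ δ m : ℝ, 0 < δ ∧ 0 < m ∧ ∀ κ : ℝ, 0 < κ → κ ≤ 1 → ∀ a : S → ℝ, a ≠ 0 →
      volume {t : ℝ | t ∈ Set.Icc (x - r) (x + r) ∧ |∑ w, a w * Z t w.1.1| < δ * eta m κ * ‖a‖} ≤
        ENNReal.ofReal (2 * r * κ) := by
  have hq1 : (1 : ℝ) ≤ q := by exact_mod_cast hq
  have hσ0 : 0 < x - 5 * r := by
    by_contra h
    nlinarith
  obtain ⟨δ, hδ, hδa⟩ := exists_delta hq S (x := x - r) (y := x + r) (by nlinarith) (by linarith)
  set B : ℝ := ∑ w : S, Z (x - 5 * r) w.1.1 with hB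
  have hB0 : 0 ≤ B := (hasSum_dm S hx).nonneg fun m =>
    mul_nonneg (Finset.sum_nonneg fun _ _ => Nat.cast_nonneg _) (Real.rpow_nonneg (Nat.cast_nonneg _) _)
  set m : ℝ := Real.log (2 * B / δ + 2) with hm
  have hmpos : 0 < m := Real.log_pos (by have : 0 ≤ 2 * B / δ := by positivity
                                         linarith)
  have hexp : Real.exp m = 2 * B / δ + 2 := Real.exp_log (by positivity)
  refine ⟨δ / 4, m, by positivity, hmpos, ?_⟩
  intro κ hκ hκ1 a ha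
  have hna : 0 < ‖a‖ := norm_pos_iff.2 ha
  have hηpos : 0 < eta m κ := Real.exp_pos _
  have hη1 : eta m κ ≤ 1 := by
    unfold eta
    rw [Real.exp_le_one_iff]
    have : 0 ≤ Real.log (72 / κ) := Real.log_nonneg (by rw [le_div_iff₀ hκ]; linarith)
    have : 0 ≤ (4 + 4 * Real.log (72 / κ)) * m := by positivity
    linarith
  obtain ⟨N, hN⟩ := G_approx S hσ0 hx (ε := δ * eta m κ / 4) (by positivity)
  obtain ⟨y, hy, hya⟩ := hδa a
  have hGy : δ / 2 * ‖a‖ ≤ ‖G a N y‖ := by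
    have h1 := (hN a y (by linarith [hy.1])).1
    have h2 : ‖a‖ * (δ * eta m κ / 4) ≤ ‖a‖ * (δ / 4) := by
      apply mul_le_mul_of_nonneg_left _ hna.le
      nlinarith
    nlinarith
  set D : ℝ := δ / 2 * ‖a‖ with hD
  have hDpos : 0 < D := by positivity
  set g : ℂ → ℂ := fun z => G a N (y + r * z) / (D : ℂ) with hg
  have hgd : Differentiable ℂ g := by
    refine Differentiable.div_const ?_ _
    exact (G_diff a N).comp (by fun_prop)
  have hnorm : ∀ z, ‖g z‖ = ‖G a N (y + r * z)‖ / D := by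
    intro z
    simp only [hg]
    rw [norm_div, Complex.norm_real, Real.norm_eq_abs, abs_of_pos hDpos]
  obtain ⟨T, hT1, hT2, hT3⟩ := Pool.Agent.Helper960.Crg.min_mod hgd hmpos (by
      rw [hnorm, mul_zero, add_zero, le_div_iff₀ hDpos, one_mul]
      exact hGy) (by
      intro z hz
      rw [hnorm, hexp, div_le_iff₀ hDpos]
      have hre : x - 5 * r ≤ ((y : ℂ) + r * z).re := by
        rw [Complex.add_re, Complex.ofReal_re, Complex.re_ofReal_mul]
        have h1 : -4 ≤ z.re := by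
          have := (abs_le.1 ((Complex.abs_re_le_norm z).trans hz)).1
          linarith
        have h2 := hy.1
        nlinarith
      have h3 := G_bound a N hx hre
      have h4 : ‖a‖ * B ≤ (2 * B / δ + 2) * D := by
        rw [hD]
        have : (2 * B / δ + 2) * (δ / 2 * ‖a‖) = ‖a‖ * B + δ * ‖a‖ := by
          field_simp
        rw [this]
        have : 0 < δ * ‖a‖ := by positivity
        linarith
      exact h3.trans h4) hκ hκ1
  refine le_trans (measure_mono ?_) (meas_balls y r κ hr T hT1 hT2)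
  rintro t ⟨ht, htF⟩
  by_contra hcon
  have hcon' : ∀ p ∈ T, (((t - y) / r : ℝ) : ℂ) ∉ Metric.closedBall p.1 p.2 :=
    fun p hp hmem => hcon ⟨p, hp, hmem⟩
  have hz2 : ‖(((t - y) / r : ℝ) : ℂ)‖ ≤ 2 := by
    rw [Complex.norm_real, Real.norm_eq_abs, abs_le]
    constructor
    · rw [le_div_iff₀ hr]
      linarith [ht.1, hy.2]
    · rw [div_le_iff₀ hr]
      linarith [ht.2, hy.1]
  have h5 := hT3 _ hz2 hcon'
  rw [hnorm] at h5
  have h6 : (y : ℂ) + r * (((t - y) / r : ℝ) : ℂ) = (t : ℂ) := by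
    rw [← Complex.ofReal_mul, ← Complex.ofReal_add]
    congr 1
    field_simp
    ring
  rw [h6, le_div_iff₀ hDpos] at h5
  change eta m κ * D ≤ _ at h5
  have h7 := (hN a t (by linarith [ht.1])).2
  rw [hD] at h5
  nlinarith

theorem eta_pow {m : ℝ} {H k : ℕ} (hH : 1 ≤ H) :
    eta m (((H : ℝ) ^ k)⁻¹) = eta m 1 * (H : ℝ) ^ (-(4 * m * k)) := by
  have hH0 : (0 : ℝ) < H := by exact_mod_cast hH
  unfold eta
  rw [Real.rpow_def_of_pos hH0, ← Real.exp_add]
  congr 1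
  rw [div_inv_eq_mul, Real.log_mul (by norm_num) (by positivity), Real.log_pow, div_one]
  ring

theorem ae_local {q : ℕ} (hq : 1 ≤ q) (S : Finset (Word q)) {x r : ℝ} (hr : 0 < r)
    (hx : 1 < (x - 5 * r) * q) :
    ∀ᵐ t : ℝ, t ∈ Set.Icc (x - r) (x + r) → ∃ τ : ℝ, ∀ᶠ H : ℕ in atTop, ∀ a : S → ℤ, a ≠ 0 →
      (∀ w, |a w| ≤ H) → (H : ℝ) ^ (-τ) ≤ |∑ w, (a w : ℝ) * Z t w.1.1| := by
  classical
  obtain ⟨δ, m, hδ, hm, hsub⟩ := sublevel hq S hr hx
  set n : ℕ := Fintype.card S with hn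
  set κ : ℕ → ℝ := fun H => (((H + 1 : ℕ) : ℝ) ^ (n + 2))⁻¹ with hκ
  have hκ0 : ∀ H, 0 < κ H := fun H => by simp only [hκ]; positivity
  have hκ1 : ∀ H, κ H ≤ 1 := fun H => by
    simp only [hκ]
    apply inv_le_one_of_one_le₀
    apply one_le_pow₀
    exact_mod_cast Nat.le_add_left 1 H
  let A : ℕ → Finset (S → ℤ) := fun H =>
    (Fintype.piFinset fun _ => Finset.Icc (-((H + 1 : ℕ) : ℤ)) ((H + 1 : ℕ) : ℤ)).filter fun a => a ≠ 0
  let V : (S → ℤ) → ℕ → Set ℝ := fun a H => {t : ℝ | t ∈ Set.Icc (x - r) (x + r) ∧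
    |∑ w, (a w : ℝ) * Z t w.1.1| < δ * eta m (κ H) * ‖fun w => (a w : ℝ)‖}
  have hV : ∀ H, ∀ a ∈ A H, volume (V a H) ≤ ENNReal.ofReal (2 * r * κ H) := by
    intro H a ha
    refine hsub (κ H) (hκ0 H) (hκ1 H) (fun w => (a w : ℝ)) ?_
    intro h
    apply (Finset.mem_filter.1 ha).2
    funext w
    have := congrFun h w
    simpa using this
  have hcard : ∀ H, ((A H).card : ℝ) ≤ (3 * ((H + 1 : ℕ) : ℝ)) ^ n := by
    intro H
    have h1 : (A H).card ≤ (2 * (H + 1) + 1) ^ n := by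
      refine (Finset.card_filter_le _ _).trans ?_
      rw [Fintype.card_piFinset]
      simp only [Int.card_Icc, Finset.prod_const, Finset.card_univ]
      apply le_of_eq
      congr 1
      omega
    calc ((A H).card : ℝ) ≤ (((2 * (H + 1) + 1) ^ n : ℕ) : ℝ) := by exact_mod_cast h1
      _ = (2 * ((H : ℝ) + 1) + 1) ^ n := by push_cast; ring
      _ ≤ (3 * ((H + 1 : ℕ) : ℝ)) ^ n := by
          apply pow_le_pow_left₀ (by positivity)
          push_cast
          have : (0 : ℝ) ≤ H := Nat.cast_nonneg _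
          linarith
  have hE : ∀ H, volume (⋃ a ∈ A H, V a H) ≤
      ENNReal.ofReal (3 ^ n * (2 * r) * (1 / ((H + 1 : ℕ) : ℝ) ^ 2)) := by
    intro H
    calc volume (⋃ a ∈ A H, V a H) ≤ ∑ a ∈ A H, volume (V a H) := measure_biUnion_finset_le _ _
      _ ≤ ∑ a ∈ A H, ENNReal.ofReal (2 * r * κ H) := Finset.sum_le_sum (hV H)
      _ = ENNReal.ofReal ((A H).card * (2 * r * κ H)) := by
          rw [Finset.sum_const, nsmul_eq_mul, ENNReal.ofReal_mul (p := ((A H).card : ℝ)) (Nat.cast_nonneg _),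
            ENNReal.ofReal_natCast]
      _ ≤ _ := by
          apply ENNReal.ofReal_le_ofReal
          have h2 : 0 ≤ 2 * r * κ H := by have := hκ0 H; positivity
          refine (mul_le_mul_of_nonneg_right (hcard H) h2).trans (le_of_eq ?_)
          simp only [hκ]
          have h3 : (0 : ℝ) < ((H + 1 : ℕ) : ℝ) := by positivity
          rw [mul_pow, pow_add]
          field_simp
  have hsum : ∑' H, volume (⋃ a ∈ A H, V a H) ≠ ⊤ := by
    have h1 : Summable fun H : ℕ => 3 ^ n * (2 * r) * (1 / ((H + 1 : ℕ) : ℝ) ^ 2) := by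
      apply Summable.mul_left
      exact (summable_nat_add_iff (f := fun H : ℕ => 1 / (H : ℝ) ^ 2) 1).2
        (Real.summable_one_div_nat_pow.2 (by norm_num))
    exact ne_top_of_le_ne_top h1.tsum_ofReal_ne_top (ENNReal.tsum_le_tsum hE)
  filter_upwards [ae_eventually_notMem hsum] with t ht htJ
  refine ⟨4 * m * ((n + 2 : ℕ) : ℝ) + 1, ?_⟩
  have hlarge : ∀ᶠ H : ℕ in atTop, 1 ≤ δ * eta m 1 * (H : ℝ) :=
    (tendsto_natCast_atTop_atTop.const_mul_atTop (by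
      have : 0 < eta m 1 := Real.exp_pos _
      positivity)).eventually_ge_atTop 1
  obtain ⟨H0, hH0⟩ := eventually_atTop.1 ht
  filter_upwards [hlarge, eventually_ge_atTop (H0 + 1)] with H hH1 hH2 a ha hah
  obtain ⟨H', rfl⟩ : ∃ H', H = H' + 1 := ⟨H - 1, by omega⟩
  have h1 := hH0 H' (by omega)
  have haA : a ∈ A H' := by
    refine Finset.mem_filter.2 ⟨Fintype.mem_piFinset.2 fun w => ?_, ha⟩
    exact Finset.mem_Icc.2 (abs_le.1 (hah w))
  have h2 : t ∉ V a H' := fun h => h1 (Set.mem_iUnion₂.2 ⟨a, haA, h⟩)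
  have h3 : δ * eta m (κ H') * ‖fun w => (a w : ℝ)‖ ≤ |∑ w, (a w : ℝ) * Z t w.1.1| := by
    by_contra h
    exact h2 ⟨htJ, not_le.1 h⟩
  refine le_trans ?_ h3
  have h4 : (1 : ℝ) ≤ ‖fun w => (a w : ℝ)‖ := by
    obtain ⟨w, hw⟩ : ∃ w, a w ≠ 0 := by
      by_contra h
      push Not at h
      exact ha (funext h)
    have h5 : (1 : ℝ) ≤ ‖(a w : ℝ)‖ := by
      rw [Real.norm_eq_abs, ← Int.cast_abs]
      exact_mod_cast Int.one_le_abs hw
    exact h5.trans (norm_le_pi_norm (fun w => (a w : ℝ)) w)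
  have hη : eta m (κ H') = eta m 1 * ((H' + 1 : ℕ) : ℝ) ^ (-(4 * m * ((n + 2 : ℕ) : ℝ))) := by
    simp only [hκ]
    exact eta_pow (by omega)
  have hHp : (0 : ℝ) < ((H' + 1 : ℕ) : ℝ) := by positivity
  have hp : 0 < ((H' + 1 : ℕ) : ℝ) ^ (-(4 * m * ((n + 2 : ℕ) : ℝ)) - 1) := Real.rpow_pos_of_pos hHp _
  have hηp : 0 < eta m (κ H') := Real.exp_pos _
  calc ((H' + 1 : ℕ) : ℝ) ^ (-(4 * m * ((n + 2 : ℕ) : ℝ) + 1))
      = ((H' + 1 : ℕ) : ℝ) ^ (-(4 * m * ((n + 2 : ℕ) : ℝ)) - 1) := by congr 1; ring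
    _ ≤ (δ * eta m 1 * ((H' + 1 : ℕ) : ℝ)) * ((H' + 1 : ℕ) : ℝ) ^ (-(4 * m * ((n + 2 : ℕ) : ℝ)) - 1) :=
        le_mul_of_one_le_left hp.le hH1
    _ = δ * eta m (κ H') := by
        rw [hη, Real.rpow_sub hHp, Real.rpow_one]
        field_simp
    _ ≤ δ * eta m (κ H') * ‖fun w => (a w : ℝ)‖ := le_mul_of_one_le_right (by positivity) h4

/-- **Almost every `t`.** -/
theorem ae_measure {q : ℕ} (hq : 1 ≤ q) : ∀ᵐ t : ℝ, 1 < t * q → ∀ S : Finset (Word q), ∃ τ : ℝ,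
    ∀ᶠ H : ℕ in atTop, ∀ a : S → ℤ, a ≠ 0 → (∀ w, |a w| ≤ H) →
      (H : ℝ) ^ (-τ) ≤ |∑ w, (a w : ℝ) * Z t w.1.1| := by
  have hq' : (0 : ℝ) < q := by exact_mod_cast hq
  have hqi : 1 / (q : ℝ) * q = 1 := by field_simp
  have h1 : ∀ (S : Finset (Word q)) (x : ℚ), ∀ᵐ t : ℝ, 1 / (q : ℝ) < x →
      t ∈ Set.Icc ((x : ℝ) - (x - 1 / q) / 6) (x + (x - 1 / q) / 6) → ∃ τ : ℝ, ∀ᶠ H : ℕ in atTop,
        ∀ a : S → ℤ, a ≠ 0 → (∀ w, |a w| ≤ H) → (H : ℝ) ^ (-τ) ≤ |∑ w, (a w : ℝ) * Z t w.1.1| := by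
    intro S x
    by_cases hx : 1 / (q : ℝ) < x
    · filter_upwards [ae_local hq S (x := x) (r := (x - 1 / q) / 6) (by linarith) (by
        have : ((x : ℝ) - 5 * ((x - 1 / q) / 6)) * q = (x * q - 1 / q * q) / 6 + 1 / q * q := by ring
        rw [this, hqi]
        have : 1 < (x : ℝ) * q := by rwa [div_lt_iff₀ hq'] at hx
        linarith)] with t ht _
      exact ht
    · exact ae_of_all _ fun t h => absurd h hx
  have h2 := ae_all_iff.2 fun S => ae_all_iff.2 (h1 S)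
  filter_upwards [h2] with t ht htq S
  have htq' : 1 / (q : ℝ) < t := by rwa [div_lt_iff₀ hq']
  obtain ⟨x, hx1, hx2⟩ := exists_rat_btwn (show t < t + (t - 1 / q) / 6 by linarith)
  exact ht S x (by linarith) ⟨by linarith, by linarith⟩

end Pool.Agent.V7H97.SH
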