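import Mathlib
import Pool.Agent.V7H97.SH.Ana

set_option autoImplicit false

/-!
# Scaled multiple zeta values: no small relations
-/

namespace Pool.Agent.V7H97.SH

open Filter Topology

theorem rho_bound {m M : ℕ} (hm : 1 ≤ m) (hmM : m ≤ M) {t : ℝ} (ht : 0 ≤ t) :
    ((m : ℝ) + 1) ^ (-t) ≤ (m : ℝ) ^ (-t) * Real.exp (-(Real.log (((M : ℝ) + 1) / M)) * t) := by
  have hm0 : (0 : ℝ) < m := by exact_mod_cast hm
  have hM0 : (0 : ℝ) < M := lt_of_lt_of_le hm0 (by exact_mod_cast hmM)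
  have hmM' : (m : ℝ) ≤ M := by exact_mod_cast hmM
  rw [Real.rpow_def_of_pos (by linarith), Real.rpow_def_of_pos hm0, ← Real.exp_add]
  apply Real.exp_le_exp.2
  have h1 : Real.log (((M : ℝ) + 1) / M) ≤ Real.log ((m : ℝ) + 1) - Real.log m := by
    rw [← Real.log_div (by linarith) hm0.ne']
    apply Real.log_le_log (by positivity)
    rw [div_le_div_iff₀ hM0 hm0]
    nlinarith
  nlinarith

/-- **No small relations.** -/
theorem small_relations {q : ℕ} (hq : 1 ≤ q) (S : Finset (List ℕ)) (hS : ∀ w ∈ S, ∀ n ∈ w, q ≤ n) :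
    ∃ M κ T : ℝ, 1 ≤ M ∧ 0 < κ ∧ ∀ t : ℝ, T ≤ t → ∀ a : List ℕ → ℤ, (∃ w ∈ S, a w ≠ 0) →
      (∀ w ∈ S, |(a w : ℝ)| ≤ Real.exp (κ * t)) → M ^ (-t) ≤ |∑ w ∈ S, (a w : ℝ) * Z t w| := by
  classical
  obtain ⟨M0, hM0, hM⟩ := exists_coef_ne_le S
  have hM0' : (1 : ℝ) ≤ M0 := by exact_mod_cast hM0
  set L : ℝ := Real.log (((M0 : ℝ) + 1) / M0) with hL
  have hLpos : 0 < L := by
    apply Real.log_pos
    rw [lt_div_iff₀ (by linarith)]
    linarith
  set B : ℝ := ∑ w ∈ S, Z 2 w with hB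
  have hq2 : (1 : ℝ) < 2 * q := by
    have : (1 : ℝ) ≤ q := by exact_mod_cast hq
    linarith
  have hsB : HasSum (fun m : ℕ => ∑ w ∈ S, ((Cs w m).ncard : ℝ) * (m : ℝ) ^ (-(2 : ℝ))) B :=
    hasSum_sum fun w hw => hasSum_Z hq2 w (hS w hw)
  have hB0 : 0 ≤ B := hsB.nonneg fun m => Finset.sum_nonneg fun w _ => by positivity
  set D : ℝ := ((M0 : ℝ) + 1) ^ 2 * B with hD
  have hD0 : 0 ≤ D := by positivity
  refine ⟨2 * M0, L / 2, max 2 (2 * D / (L / 2)), by linarith, by linarith, ?_⟩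
  intro t ht a hne ha
  have ht2 : 2 ≤ t := (le_max_left _ _).trans ht
  have htD : 2 * D ≤ L / 2 * t := by
    have := (le_max_right _ _).trans ht
    rw [div_le_iff₀ (by positivity)] at this
    linarith
  have htq : 1 < t * q := by
    have : (1 : ℝ) ≤ q := by exact_mod_cast hq
    nlinarith
  set b : List ℕ →₀ ℝ := Finsupp.indicator S fun w _ => (a w : ℝ) with hb
  have hbS : b.support ⊆ S := Finsupp.support_indicator_subset S _
  have hbv : ∀ w ∈ S, b w = a w := fun w hw => Finsupp.indicator_of_mem hw _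
  have hb0 : b ≠ 0 := by
    intro h
    obtain ⟨w, hw, hw0⟩ := hne
    have := hbv w hw
    rw [h, Finsupp.zero_apply] at this
    exact hw0 (by exact_mod_cast this.symm)
  have hcoef : ∀ m, coef b m = ∑ w ∈ S, (a w : ℝ) * ((Cs w m).ncard : ℝ) := by
    intro m
    unfold coef
    rw [Finsupp.sum_of_support_subset _ hbS _ (by simp)]
    exact Finset.sum_congr rfl fun w hw => by rw [hbv w hw]
  have hF := hasSum_comb htq b fun w hw => hS w (hbS hw)
  have hFe : (b.sum fun w x => x * Z t w) = ∑ w ∈ S, (a w : ℝ) * Z t w := by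
    rw [Finsupp.sum_of_support_subset _ hbS _ (by simp)]
    exact Finset.sum_congr rfl fun w hw => by rw [hbv w hw]
  rw [hFe] at hF
  set F : ℝ := ∑ w ∈ S, (a w : ℝ) * Z t w with hFdef
  obtain ⟨m1, hm1, hm1M, hm1c⟩ := hM b hbS (fun w hw n hn => hq.trans (hS w (hbS hw) n hn)) hb0
  have hex : ∃ m : ℕ, 1 ≤ m ∧ coef b m ≠ 0 := ⟨m1, hm1, hm1c⟩
  obtain ⟨h1, h2⟩ := Nat.find_spec hex
  have hle : Nat.find hex ≤ M0 := (Nat.find_min' hex ⟨hm1, hm1c⟩).trans hm1M
  have hmin : ∀ m, m < Nat.find hex → coef b m = 0 := by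
    intro m hm
    rcases Nat.eq_zero_or_pos m with rfl | hm0
    · exact coef_zero b
    · by_contra h
      exact Nat.find_min hex hm ⟨hm0, h⟩
  generalize Nat.find hex = m0 at h1 h2 hle hmin
  have hm0r : (1 : ℝ) ≤ m0 := by exact_mod_cast h1
  have hm0M : (m0 : ℝ) ≤ M0 := by exact_mod_cast hle
  have hcm : 1 ≤ |coef b m0| := by
    rw [hcoef]
    rw [hcoef] at h2
    have e : (∑ w ∈ S, (a w : ℝ) * ((Cs w m0).ncard : ℝ)) =
        ((∑ w ∈ S, a w * ((Cs w m0).ncard : ℤ) : ℤ) : ℝ) := by push_cast; rfl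
    rw [e] at h2 ⊢
    have h3 : (∑ w ∈ S, a w * ((Cs w m0).ncard : ℤ) : ℤ) ≠ 0 := by exact_mod_cast h2
    have h4 := Int.one_le_abs h3
    rw [← Int.cast_abs]
    exact_mod_cast h4
  set H : ℝ := Real.exp (L / 2 * t) with hH
  have hH0 : 0 < H := Real.exp_pos _
  have hs1 := hF.sub (hasSum_ite_eq m0 (coef b m0 * (m0 : ℝ) ^ (-t)))
  have hs2 := hsB.mul_left (H * ((m0 : ℝ) + 1) ^ (-(t - 2)))
  have hbound := hs1.norm_le_of_bounded hs2 (by
    intro m
    have hnn : 0 ≤ H * ((m0 : ℝ) + 1) ^ (-(t - 2)) *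
        ∑ w ∈ S, ((Cs w m).ncard : ℝ) * (m : ℝ) ^ (-(2 : ℝ)) := by positivity
    rcases lt_trichotomy m m0 with h | h | h
    · rw [if_neg (by omega), hmin m h]
      simpa using hnn
    · subst h
      rw [if_pos rfl, sub_self, norm_zero]
      exact hnn
    · rw [if_neg (by omega), sub_zero, Real.norm_eq_abs, abs_mul]
      have hmr : ((m0 : ℝ) + 1) ≤ m := by exact_mod_cast h
      have hmpos : (0 : ℝ) < m := by linarith
      have e1 : |coef b m| ≤ H * ∑ w ∈ S, ((Cs w m).ncard : ℝ) := by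
        rw [hcoef, Finset.mul_sum]
        refine (Finset.abs_sum_le_sum_abs _ _).trans (Finset.sum_le_sum fun w hw => ?_)
        rw [abs_mul, Nat.abs_cast]
        exact mul_le_mul_of_nonneg_right (ha w hw) (Nat.cast_nonneg _)
      have e2 : |(m : ℝ) ^ (-t)| ≤ ((m0 : ℝ) + 1) ^ (-(t - 2)) * (m : ℝ) ^ (-(2 : ℝ)) := by
        rw [abs_of_nonneg (by positivity)]
        have : (m : ℝ) ^ (-t) = (m : ℝ) ^ (-(t - 2)) * (m : ℝ) ^ (-(2 : ℝ)) := by
          rw [← Real.rpow_add hmpos]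
          congr 1
          ring
        rw [this]
        refine mul_le_mul_of_nonneg_right ?_ (by positivity)
        exact Real.rpow_le_rpow_of_nonpos (by positivity) hmr (by linarith)
      calc |coef b m| * |(m : ℝ) ^ (-t)| ≤ (H * ∑ w ∈ S, ((Cs w m).ncard : ℝ)) *
            (((m0 : ℝ) + 1) ^ (-(t - 2)) * (m : ℝ) ^ (-(2 : ℝ))) :=
            mul_le_mul e1 e2 (abs_nonneg _) (by positivity)
        _ = _ := by
            rw [← Finset.sum_mul]
            ring)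
  rw [Real.norm_eq_abs] at hbound
  have hmain : H * ((m0 : ℝ) + 1) ^ (-(t - 2)) * B ≤ 1 / 2 * (m0 : ℝ) ^ (-t) := by
    have e1 : ((m0 : ℝ) + 1) ^ (-(t - 2)) = ((m0 : ℝ) + 1) ^ 2 * ((m0 : ℝ) + 1) ^ (-t) := by
      rw [← Real.rpow_natCast ((m0 : ℝ) + 1) 2, ← Real.rpow_add (by linarith)]
      congr 1
      push_cast
      ring
    have e2 := rho_bound h1 hle (t := t) (by linarith)
    have e3 : Real.exp (-L * t) = (H * H)⁻¹ := by
      rw [hH, ← Real.exp_add, ← Real.exp_neg]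
      congr 1
      ring
    rw [← hL, e3] at e2
    have e4 : D ≤ 1 / 2 * H := by
      have := Real.add_one_le_exp (L / 2 * t)
      rw [← hH] at this
      linarith
    have e5 : ((m0 : ℝ) + 1) ^ 2 * B ≤ D := by
      rw [hD]
      gcongr
    have hmt : 0 < (m0 : ℝ) ^ (-t) := Real.rpow_pos_of_pos (by linarith) _
    rw [e1]
    calc H * (((m0 : ℝ) + 1) ^ 2 * ((m0 : ℝ) + 1) ^ (-t)) * B
        = H * (((m0 : ℝ) + 1) ^ 2 * B) * ((m0 : ℝ) + 1) ^ (-t) := by ring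
      _ ≤ H * (1 / 2 * H) * ((m0 : ℝ) ^ (-t) * (H * H)⁻¹) := by
          refine mul_le_mul ?_ e2 (by positivity) (by positivity)
          exact mul_le_mul_of_nonneg_left (e5.trans e4) hH0.le
      _ = 1 / 2 * (m0 : ℝ) ^ (-t) := by
          field_simp
  have hlow : (m0 : ℝ) ^ (-t) ≤ |coef b m0 * (m0 : ℝ) ^ (-t)| := by
    have hmt : 0 < (m0 : ℝ) ^ (-t) := Real.rpow_pos_of_pos (by linarith) _
    rw [abs_mul, abs_of_pos hmt]
    nlinarith
  have hfin : 1 / 2 * (m0 : ℝ) ^ (-t) ≤ |F| := by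
    have := abs_sub_abs_le_abs_sub (coef b m0 * (m0 : ℝ) ^ (-t)) F
    rw [abs_sub_comm] at this
    linarith
  refine le_trans ?_ hfin
  rw [Real.mul_rpow (by norm_num) (by linarith)]
  refine mul_le_mul ?_ ?_ (by positivity) (by norm_num)
  · calc (2 : ℝ) ^ (-t) ≤ (2 : ℝ) ^ (-(1 : ℝ)) :=
          Real.rpow_le_rpow_of_exponent_le (by norm_num) (by linarith)
      _ = 1 / 2 := by
          rw [Real.rpow_neg (by norm_num), Real.rpow_one]
          norm_num
  · exact Real.rpow_le_rpow_of_nonpos (by linarith) hm0M (by linarith)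

end Pool.Agent.V7H97.SH
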